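import Mathlib
import Pool.Agent.H104R3.EG.Stmts

set_option autoImplicit false

namespace Pool.Agent.H663R3.EG

open Pool.Agent.H104R3.EG

/-- a nontrivial finite solvable group has a nontrivial normal subgroup of prime power order -/
theorem exists_normal_r (H : Type) [Group H] [Finite H] [Group.IsSolvable H] [Nontrivial H] :
    ∃ r : ℕ, r.Prime ∧ ∃ R : Subgroup H, R.Normal ∧ IsPGroup r R ∧ R ≠ ⊥ := by
  classical
  have hs : ∃ n, derivedSeries H n = ⊥ := (inferInstance : Group.IsSolvable H).solvable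
  let n := Nat.find hs
  have hn : derivedSeries H n = ⊥ := Nat.find_spec hs
  have hn0 : n ≠ 0 := by
    intro h
    rw [h, derivedSeries_zero] at hn
    exact top_ne_bot hn
  obtain ⟨k, hk⟩ := Nat.exists_eq_succ_of_ne_zero hn0
  have hk' : derivedSeries H k ≠ ⊥ := Nat.find_min hs (by change k < n; omega)
  rw [hk, Nat.succ_eq_add_one, derivedSeries_succ] at hn
  set A := derivedSeries H k with hA
  have hcomm : ∀ x y : A, x * y = y * x := by
    intro x y
    have h1 : (x : H) * y * (x : H)⁻¹ * (y : H)⁻¹ ∈ ⁅A, A⁆ :=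
      Subgroup.commutator_mem_commutator x.2 y.2
    rw [hn, Subgroup.mem_bot, mul_inv_eq_one, mul_inv_eq_iff_eq_mul] at h1
    exact Subtype.ext h1
  have hcard : Nat.card A ≠ 1 := fun h => hk' (Subgroup.card_eq_one.1 h)
  obtain ⟨r, hr, hrA⟩ := Nat.exists_prime_and_dvd hcard
  have : Fact r.Prime := ⟨hr⟩
  let S : Sylow r A := default
  have hSn : (S : Subgroup A).Normal := ⟨fun x hx g => by
    rw [hcomm g x, mul_inv_cancel_right]
    exact hx⟩
  have hSc : (S : Subgroup A).Characteristic := S.characteristic_of_normal hSn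
  refine ⟨r, hr, (S : Subgroup A).map A.subtype, inferInstance, S.isPGroup'.map _, ?_⟩
  intro h
  have h1 := (Subgroup.map_eq_bot_iff_of_injective _ A.subtype_injective).1 h
  exact S.ne_bot_of_dvd_card hrA h1

theorem exists_core (G : Type) [Group G] [Finite G] (p : ℕ) :
    ∃ P : Subgroup G, P.Normal ∧ IsPGroup p P ∧ ∀ H : Subgroup G, H.Normal → IsPGroup p H →
      H ≤ P := by
  classical
  let T := {H : Subgroup G // H.Normal ∧ IsPGroup p H}
  have : Nonempty T := ⟨⟨⊥, inferInstance, IsPGroup.of_bot⟩⟩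
  obtain ⟨P, hP⟩ := Finite.exists_max (fun H : T => Nat.card H.1)
  refine ⟨P.1, P.2.1, P.2.2, fun H hH hp => ?_⟩
  have := P.2.1
  have := hH
  have h1 : IsPGroup p (H ⊔ P.1 : Subgroup G) := hp.to_sup_of_normal_right P.2.2
  have h2 := hP ⟨H ⊔ P.1, inferInstance, h1⟩
  have h3 : P.1 = H ⊔ P.1 := Subgroup.eq_of_le_of_card_ge le_sup_right h2
  rw [h3]
  exact le_sup_left

theorem strR : StrR := by
  classical
  intro G _ _ _ p hp N hN hNp _ hG
  have : Fact p.Prime := ⟨hp⟩
  obtain ⟨hNn, hNb, hNmin⟩ := hN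
  obtain ⟨P, hPn, hPp, hPmax⟩ := exists_core G p
  have hNP : N ≤ P := hPmax N hNn hNp
  -- `N` is centralized by `P`
  have hcent : N ≤ Subgroup.centralizer (P : Set G) := by
    let _ : MulAction P N := MulAction.compHom N ((MulAut.conjNormal (H := N)).comp P.subtype)
    have hsm : ∀ (y : P) (x : N), ((y • x : N) : G) = y * x * (y : G)⁻¹ := by
      intro y x
      exact MulAut.conjNormal_apply (y : G) x
    have hdvd : p ∣ Nat.card N := by
      rcases hNp.card_eq_or_dvd with h | h
      · exact absurd (Subgroup.card_eq_one.1 h) hNb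
      · exact h
    have h1 : (1 : N) ∈ MulAction.fixedPoints P N := by
      intro y
      apply Subtype.ext
      rw [hsm]
      simp
    obtain ⟨b, hb, hb1⟩ := hPp.exists_fixed_point_of_prime_dvd_card_of_fixed_point N hdvd h1
    have hL := hNmin (N ⊓ Subgroup.centralizer (P : Set G)) inferInstance inf_le_left
    rcases hL with hL | hL
    · exfalso
      have hbL : (b : G) ∈ N ⊓ Subgroup.centralizer (P : Set G) := by
        refine Subgroup.mem_inf.2 ⟨b.2, ?_⟩
        rw [Subgroup.mem_centralizer_iff]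
        intro y hy
        have h2 := congrArg (Subtype.val) (hb ⟨y, hy⟩)
        rw [hsm] at h2
        simp only at h2
        exact mul_inv_eq_iff_eq_mul.1 h2
      rw [hL, Subgroup.mem_bot] at hbL
      exact hb1 (Subtype.ext hbL.symm)
    · rw [← hL]
      exact inf_le_right
  -- the quotient
  have hPtop : P ≠ ⊤ := by
    intro h
    rw [h] at hPp
    exact hG (hPp.of_equiv Subgroup.topEquiv)
  have : Nontrivial (G ⧸ P) := QuotientGroup.nontrivial_iff.2 hPtop
  obtain ⟨r, hr, R, hRn, hRp, hRb⟩ := exists_normal_r (G ⧸ P)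
  have : Fact r.Prime := ⟨hr⟩
  set Y : Subgroup G := R.comap (QuotientGroup.mk' P) with hY
  have hPY : P ≤ Y := by
    intro x hx
    rw [hY, Subgroup.mem_comap]
    have : (QuotientGroup.mk' P) x = 1 := (QuotientGroup.eq_one_iff x).2 hx
    rw [this]
    exact R.one_mem
  have hcardY : Nat.card Y = Nat.card P * Nat.card R := by
    have h1 : R.comap (QuotientGroup.mk' P) = Y := rfl
    have h2 : Y.index = R.index :=
      Subgroup.index_comap_of_surjective R (QuotientGroup.mk'_surjective P)
    have h3 := Y.card_mul_index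
    have h4 := R.card_mul_index
    have h5 := P.card_mul_index
    rw [Subgroup.index_eq_card] at h5
    have h6 : R.index ≠ 0 := Subgroup.index_ne_zero_of_finite
    rw [h2] at h3
    rw [← h5, ← h4, ← mul_assoc] at h3
    exact Nat.eq_of_mul_eq_mul_right (Nat.pos_of_ne_zero h6) h3
  obtain ⟨a, ha⟩ := IsPGroup.iff_card.1 hPp
  obtain ⟨k, hk⟩ := IsPGroup.iff_card.1 hRp
  have hk0 : k ≠ 0 := by
    rintro rfl
    rw [pow_zero] at hk
    exact hRb (Subgroup.card_eq_one.1 hk)
  have hrp : r ≠ p := by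
    rintro rfl
    have h1 : IsPGroup r Y := IsPGroup.of_card (n := a + k) (by rw [hcardY, ha, hk, pow_add])
    have h2 : Y ≤ P := hPmax Y inferInstance h1
    have h3 : Y = P := le_antisymm h2 hPY
    rw [h3] at hcardY
    have h4 : 0 < Nat.card P := Nat.card_pos
    have h5 : Nat.card R = 1 := by
      have : Nat.card P * 1 = Nat.card P * Nat.card R := by rw [mul_one]; exact hcardY
      exact (Nat.eq_of_mul_eq_mul_left h4 this).symm
    exact hRb (Subgroup.card_eq_one.1 h5)
  let S : Sylow r Y := default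
  set Q : Subgroup G := (S : Subgroup Y).map Y.subtype with hQ
  have hQp : IsPGroup r Q := S.isPGroup'.map _
  have hQcard : Nat.card Q = r ^ k := by
    have h1 : Nat.card Q = Nat.card (S : Subgroup Y) :=
      Nat.card_congr ((S : Subgroup Y).equivMapOfInjective _ Y.subtype_injective).symm.toEquiv
    rw [h1]
    have h2 : Nat.card (S : Subgroup Y) = r ^ Nat.factorization (Nat.card Y) r :=
      S.card_eq_multiplicity
    rw [h2, hcardY, ha, hk, Nat.factorization_mul (pow_ne_zero _ hp.ne_zero)
      (pow_ne_zero _ hr.ne_zero), Finsupp.add_apply, Nat.factorization_pow, Nat.factorization_pow,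
      Finsupp.smul_apply, Finsupp.smul_apply, hr.factorization_self,
      Nat.factorization_eq_zero_of_not_dvd (fun h => hrp ((Nat.prime_dvd_prime_iff_eq hr hp).1 h))]
    simp
  have hQY : Q ≤ Y := Subgroup.map_subtype_le _
  have hQb : Q ≠ ⊥ := by
    intro h
    rw [h, Subgroup.card_bot] at hQcard
    have := Nat.one_lt_pow hk0 hr.one_lt
    omega
  have hYPQ : Y ≤ P ⊔ Q := by
    have h1 : P ⊔ Q ≤ Y := sup_le hPY hQY
    have h2 : Nat.card P ∣ Nat.card (P ⊔ Q : Subgroup G) :=
      Subgroup.card_dvd_of_le le_sup_left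
    have h3 : Nat.card Q ∣ Nat.card (P ⊔ Q : Subgroup G) :=
      Subgroup.card_dvd_of_le le_sup_right
    have h4 : Nat.Coprime (Nat.card P) (Nat.card Q) := by
      rw [ha, hQcard]
      exact Nat.Coprime.pow _ _ ((Nat.coprime_primes hp hr).2 (fun h => hrp h.symm))
    have h5 := h4.mul_dvd_of_dvd_of_dvd h2 h3
    have h6 : Nat.card Y ≤ Nat.card (P ⊔ Q : Subgroup G) := by
      rw [hcardY, hk, ← hQcard]
      exact Nat.le_of_dvd Nat.card_pos h5
    exact (Subgroup.eq_of_le_of_card_ge h1 h6).ge
  refine ⟨P, Q, hPp, ?_, hQb, ?_, ?_⟩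
  · intro x hx y hy
    exact ((Subgroup.mem_centralizer_iff.1 (hcent hx)) y hy).symm
  · exact disjoint_iff.1 (IsPGroup.disjoint_of_ne r p hrp Q N hQp hNp)
  · have h1 := Sylow.normalizer_sup_eq_top S
    rw [← hQ] at h1
    rw [eq_top_iff, ← h1]
    refine sup_le le_sup_right (hYPQ.trans (sup_le le_sup_left ?_))
    exact Subgroup.le_normalizer.trans le_sup_right

end Pool.Agent.H663R3.EG
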